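import Pool.Agent.W79.BP.Defs

set_option autoImplicit false

namespace Pool.Agent.W481.BP2

open Filter

/-- powers of the logarithm are eventually small -/
theorem logk (c : ℕ) : ∀ k : ℕ, ∃ n0 : ℕ, ∀ n : ℕ, n0 ≤ n → c * (Nat.log 2 n + 1) ^ k ≤ n := by
  intro k
  have h1 : (fun m : ℕ => ((m : ℝ) ^ k)) =o[atTop] fun m : ℕ => (2 : ℝ) ^ m :=
    isLittleO_pow_const_const_pow_of_one_lt k (by norm_num)
  have h2 := h1.def (c := (1 : ℝ) / (2 * (c + 1))) (by positivity)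
  obtain ⟨m0, hm0⟩ := eventually_atTop.1 h2
  refine ⟨2 ^ m0, fun n hn => ?_⟩
  have hn0 : n ≠ 0 := by
    intro h
    rw [h] at hn
    have : 0 < 2 ^ m0 := by positivity
    omega
  have h3 : m0 ≤ Nat.log 2 n := Nat.le_log_of_pow_le (by norm_num) hn
  have h4 := hm0 (Nat.log 2 n + 1) (by omega)
  rw [Real.norm_eq_abs, Real.norm_eq_abs, abs_of_nonneg (by positivity),
    abs_of_nonneg (by positivity)] at h4
  have h5 : 2 ^ Nat.log 2 n ≤ n := Nat.pow_log_le_self 2 hn0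
  have h6 : ((2 : ℝ) ^ Nat.log 2 n) ≤ n := by exact_mod_cast h5
  have h7 : (c : ℝ) * ((Nat.log 2 n + 1 : ℕ) : ℝ) ^ k ≤ n := by
    have hc : (0 : ℝ) ≤ c := Nat.cast_nonneg c
    have h8 : (2 : ℝ) ^ (Nat.log 2 n + 1) = 2 * 2 ^ Nat.log 2 n := by rw [pow_succ]; ring
    rw [h8] at h4
    have h9 : 1 / (2 * ((c : ℝ) + 1)) * (2 * 2 ^ Nat.log 2 n) = 2 ^ Nat.log 2 n / (c + 1) := by
      field_simp
    rw [h9, le_div_iff₀ (by positivity)] at h4
    have h10 : (0 : ℝ) ≤ ((Nat.log 2 n + 1 : ℕ) : ℝ) ^ k := by positivity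
    nlinarith
  exact_mod_cast h7

theorem main : Pool.Agent.W79.BP.S_LOG := by
  intro c k
  exact logk c k

end Pool.Agent.W481.BP2
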